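import Mathlib
import Pool.Agent.H643R2.ChainMain

/-!
# Decompositions of computable posets into `k` chains do not represent all c.b. `Π⁰₁` classes

The number of decompositions of an arbitrary poset into `k` chains is finite or uncountable
(`Pool.Agent.H643R2.ChainDec.finite_or_uncountable`), while the computably bounded `Π⁰₁` class of
all 0-1-sequences with at most one `1` is countably infinite.
-/

open scoped Computability

namespace Pool.Agent.Results.MP_233b81_lc.ChainNegative

/-! ### Effectively closed classes -/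

/-- A tree: a set of finite strings closed under initial segments. -/
def IsTree (T : Set (List ℕ)) : Prop := ∀ σ τ : List ℕ, σ <+: τ → τ ∈ T → σ ∈ T

/-- The initial segment of `x` of length `n`. -/
def restrict (x : ℕ → ℕ) (n : ℕ) : List ℕ := (List.range n).map x

/-- The set `[T]` of infinite paths of `T`. -/
def paths (T : Set (List ℕ)) : Set (ℕ → ℕ) := {x | ∀ n, restrict x n ∈ T}

/-- Computably bounded `Π⁰₁` classes. -/
def IsCBClass (P : Set (ℕ → ℕ)) : Prop :=
  ∃ T : Set (List ℕ), IsTree T ∧ ComputablePred (fun σ : List ℕ => σ ∈ T) ∧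
    (∃ g : List ℕ → ℕ, Computable g ∧ ∀ (σ : List ℕ) (i : ℕ), σ ++ [i] ∈ T → i < g σ) ∧
    P = paths T

/-- `Q` represents `P`: there is a bijection from `P` to `Q` preserving Turing degrees. -/
def Represents (Q P : Set (ℕ → ℕ)) : Prop :=
  ∃ F : P ≃ Q, ∀ f : P, ((F f : ℕ → ℕ) : ℕ →. ℕ) ≡ᵀ ((f : ℕ → ℕ) : ℕ →. ℕ)

/-- A computable partial ordering `(A, R)`. -/
structure IsComputablePoset (A : Set ℕ) (R : ℕ → ℕ → Prop) : Prop where
  computable_set : ComputablePred (fun a : ℕ => a ∈ A)
  computable_rel : ComputablePred (fun p : ℕ × ℕ => R p.1 p.2)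
  sub : ∀ a b, R a b → a ∈ A ∧ b ∈ A
  refl : ∀ a ∈ A, R a a
  antisymm : ∀ a b, R a b → R b a → a = b
  trans : ∀ a b c, R a b → R b c → R a c

/-- `f` restricted to `A` is a decomposition of `(A, R)` into `k` chains: values below `k`, and any
two elements of the same fibre are comparable. -/
def IsChainDec (A : Set ℕ) (R : ℕ → ℕ → Prop) (k : ℕ) (f : ℕ → ℕ) : Prop :=
  (∀ a ∈ A, f a < k) ∧ ∀ a ∈ A, ∀ b ∈ A, f a = f b → R a b ∨ R b a

/-- The class of decompositions into `k` chains, a map `f` on `A` being viewed as the element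
`n ↦ f (e n)` of `ω^ω` through the enumeration `e` of `A`. -/
def decEnum (A : Set ℕ) (R : ℕ → ℕ → Prop) (k : ℕ) (e : ℕ → ℕ) : Set (ℕ → ℕ) :=
  {x | ∃ f : ℕ → ℕ, IsChainDec A R k f ∧ ∀ n, x n = f (e n)}

/-- The same class, a map `f` on `A` being viewed as an element of `ω^ω` by putting the value `0`
outside `A` (this coding also covers `A = ∅`). -/
def decZero (A : Set ℕ) (R : ℕ → ℕ → Prop) (k : ℕ) : Set (ℕ → ℕ) :=
  {x | IsChainDec A R k x ∧ ∀ n, n ∉ A → x n = 0}

/-- `P` represents `D` up to permutations of the colours: there is a degree-preserving map `F` from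
`P` to `D` such that each member of `D` agrees on `B` with `σ ∘ F p` for some permutation `σ` of the
colours, for exactly one `p` in `P`. -/
def RepresentsUpToPerm (P D : Set (ℕ → ℕ)) (B : Set ℕ) : Prop :=
  ∃ F : P → D, (∀ p : P, ((F p : ℕ → ℕ) : ℕ →. ℕ) ≡ᵀ ((p : ℕ → ℕ) : ℕ →. ℕ)) ∧
    ∀ x : D, ∃! p : P, ∃ σ : Equiv.Perm ℕ, ∀ n ∈ B, (x : ℕ → ℕ) n = σ ((F p : ℕ → ℕ) n)

/-! ### The countable class -/

/-- The tree of all strings with sum at most one. -/
def T1 : Set (List ℕ) := {σ | σ.sum ≤ 1}

theorem T1_tree : IsTree T1 := by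
  rintro σ τ ⟨ρ, rfl⟩ h
  simp only [T1, Set.mem_ofPred_eq, List.sum_append] at h ⊢
  omega

theorem T1_computable : ComputablePred (fun σ : List ℕ => σ ∈ T1) := by
  have hsum : Primrec (fun σ : List ℕ => σ.sum) := by
    have h : Primrec (fun σ : List ℕ => σ.foldr (fun b s => b + s) 0) :=
      Primrec.list_foldr (f := fun σ : List ℕ => σ) (g := fun _ => 0)
        (h := fun _ p => p.1 + p.2) Primrec.id (Primrec.const 0)
        (Primrec.nat_add.comp (Primrec.fst.comp Primrec.snd) (Primrec.snd.comp Primrec.snd)).to₂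
    exact h
  have hp : PrimrecPred (fun σ : List ℕ => σ.sum ≤ 1) :=
    Primrec.nat_le.comp hsum (Primrec.const 1)
  exact hp.computablePred

theorem T1_cb : IsCBClass (paths T1) := by
  refine ⟨T1, T1_tree, T1_computable, ⟨fun _ => 2, Computable.const 2, ?_⟩, rfl⟩
  intro σ i h
  simp only [T1, Set.mem_ofPred_eq, List.sum_append, List.sum_singleton] at h
  show i < 2
  omega

theorem sum_restrict (x : ℕ → ℕ) (n : ℕ) : (restrict x n).sum = ∑ i ∈ Finset.range n, x i := by
  unfold restrict
  induction n with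
  | zero => simp
  | succ n ih => rw [List.range_succ, List.map_append, List.sum_append, ih, Finset.sum_range_succ]; simp

theorem mem_paths_T1 (x : ℕ → ℕ) : x ∈ paths T1 ↔ ∀ n, ∑ i ∈ Finset.range n, x i ≤ 1 := by
  simp only [paths, T1, Set.mem_ofPred_eq, sum_restrict]

/-- The `n`-th unit sequence. -/
def unitSeq (n : ℕ) : ℕ → ℕ := fun m => if m = n then 1 else 0

theorem unitSeq_mem (n : ℕ) : unitSeq n ∈ paths T1 := by
  rw [mem_paths_T1]
  intro m
  unfold unitSeq
  rw [Finset.sum_ite_eq']
  split_ifs <;> omega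

theorem unitSeq_injective : Function.Injective unitSeq := by
  intro a b h
  have := congrFun h a
  simp only [unitSeq, if_true] at this
  by_contra hab
  rw [if_neg hab] at this
  omega

theorem paths_T1_infinite : (paths T1).Infinite :=
  Set.infinite_of_injective_forall_mem unitSeq_injective unitSeq_mem

theorem paths_T1_countable : (paths T1).Countable := by
  refine ((Set.countable_singleton (fun _ : ℕ => 0)).union (Set.countable_range unitSeq)).mono ?_
  intro x hx
  rw [mem_paths_T1] at hx
  by_cases h : ∀ n, x n = 0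
  · left
    rw [Set.mem_singleton_iff]
    funext n
    exact h n
  · right
    push Not at h
    obtain ⟨n, hn⟩ := h
    refine ⟨n, ?_⟩
    funext m
    unfold unitSeq
    have h1 := hx (max n m + 1)
    have hn1 : n ∈ Finset.range (max n m + 1) := by
      rw [Finset.mem_range]; omega
    have hm1 : m ∈ Finset.range (max n m + 1) := by
      rw [Finset.mem_range]; omega
    have h2 := Finset.single_le_sum (f := x) (fun _ _ => Nat.zero_le _) hn1
    by_cases hmn : m = n
    · subst hmn
      rw [if_pos rfl]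
      omega
    · rw [if_neg hmn]
      have h3 : ∑ i ∈ ({n, m} : Finset ℕ), x i ≤ ∑ i ∈ Finset.range (max n m + 1), x i := by
        apply Finset.sum_le_sum_of_subset
        intro y hy
        rw [Finset.mem_insert, Finset.mem_singleton] at hy
        rcases hy with rfl | rfl
        · exact hn1
        · exact hm1
      rw [Finset.sum_pair (Ne.symm hmn)] at h3
      omega

/-! ### The main theorem -/

open Pool.Agent.H643R2.ChainDec (CDec)

theorem no_countable {D : Set (ℕ → ℕ)} (hc : D.Countable) (hi : D.Infinite) {α : Type}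
    [PartialOrder α] {k : ℕ} (φ : D → CDec α k) (hφ : Function.Injective φ) (ψ : CDec α k → D)
    (hψ : Function.Injective ψ) : False := by
  have : Countable D := hc.to_subtype
  have : Infinite D := hi.to_subtype
  rcases Pool.Agent.H643R2.ChainDec.finite_or_uncountable α k with h | h
  · have h1 : Finite (CDec α k) := h.to_subtype
    have h2 : Finite D := Finite.of_injective φ hφ
    exact not_finite D
  · apply h
    have h3 : Countable (CDec α k) := hψ.countable
    exact Set.countable_coe_iff.mp h3

/-- The partial order on the subtype. -/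
@[reducible] def subOrder {A : Set ℕ} {R : ℕ → ℕ → Prop} (h : IsComputablePoset A R) :
    PartialOrder A where
  le a b := R a b
  lt a b := R a b ∧ ¬ R b a
  lt_iff_le_not_ge _ _ := Iff.rfl
  le_refl a := h.refl a a.2
  le_trans a b c := h.trans a b c
  le_antisymm a b h1 h2 := Subtype.ext (h.antisymm a b h1 h2)

theorem dec_restrict {A : Set ℕ} {R : ℕ → ℕ → Prop} (h : IsComputablePoset A R) {k : ℕ}
    {f : ℕ → ℕ} (hf : IsChainDec A R k f) :
    (fun a : A => (⟨f a, hf.1 a a.2⟩ : Fin k)) ∈ @CDec A (subOrder h) k := by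
  let := subOrder h
  intro a b heq
  exact hf.2 a a.2 b b.2 (congrArg Fin.val heq)

open Classical in
/-- Extension by zero. -/
noncomputable def ext0 {A : Set ℕ} {k : ℕ} (f : A → Fin k) : ℕ → ℕ :=
  fun n => if h : n ∈ A then (f ⟨n, h⟩ : ℕ) else 0

theorem ext0_mem {A : Set ℕ} {k : ℕ} (f : A → Fin k) (a : A) : ext0 f a = f a := by
  unfold ext0
  rw [dif_pos a.2]

theorem ext0_dec {A : Set ℕ} {R : ℕ → ℕ → Prop} (h : IsComputablePoset A R) {k : ℕ}
    {f : A → Fin k} (hf : f ∈ @CDec A (subOrder h) k) : IsChainDec A R k (ext0 f) := by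
  let := subOrder h
  refine ⟨fun a ha => ?_, fun a ha b hb heq => ?_⟩
  · rw [show a = ((⟨a, ha⟩ : A) : ℕ) from rfl, ext0_mem]
    exact (f _).2
  · rw [show a = ((⟨a, ha⟩ : A) : ℕ) from rfl, show b = ((⟨b, hb⟩ : A) : ℕ) from rfl, ext0_mem,
      ext0_mem] at heq
    exact hf ⟨a, ha⟩ ⟨b, hb⟩ (Fin.ext heq)

theorem zero_case {A : Set ℕ} {R : ℕ → ℕ → Prop} (h : IsComputablePoset A R) (k : ℕ)
    (hc : (decZero A R k).Countable) (hi : (decZero A R k).Infinite) : False := by
  let := subOrder h
  refine no_countable (α := A) (k := k) hc hi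
    (fun x : decZero A R k => ⟨fun a => ⟨x.1 a, x.2.1.1 a a.2⟩, dec_restrict h x.2.1⟩) ?_
    (fun f => ⟨ext0 f.1, ext0_dec h f.2, fun n hn => by unfold ext0; rw [dif_neg hn]⟩) ?_
  · intro x y hxy
    apply Subtype.ext
    funext n
    by_cases hn : n ∈ A
    · have := congrFun (congrArg Subtype.val hxy) ⟨n, hn⟩
      exact congrArg Fin.val this
    · rw [x.2.2 n hn, y.2.2 n hn]
  · intro f g hfg
    apply Subtype.ext
    funext a
    have := congrFun (congrArg Subtype.val hfg) (a : ℕ)
    simp only [ext0_mem] at this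
    exact Fin.ext this

theorem enum_case {A : Set ℕ} {R : ℕ → ℕ → Prop} (h : IsComputablePoset A R) (k : ℕ) (e : ℕ → ℕ)
    (he : Set.range e = A) (hc : (decEnum A R k e).Countable) (hi : (decEnum A R k e).Infinite) :
    False := by
  let := subOrder h
  have hmem : ∀ n, e n ∈ A := fun n => he ▸ Set.mem_range_self n
  have hex : ∀ x : decEnum A R k e, ∃ f : ℕ → ℕ, IsChainDec A R k f ∧ ∀ n, x.1 n = f (e n) :=
    fun x => x.2
  choose f hf1 hf2 using hex
  refine no_countable (α := A) (k := k) hc hi
    (fun x : decEnum A R k e => ⟨fun a => ⟨f x a, (hf1 x).1 a a.2⟩, dec_restrict h (hf1 x)⟩) ?_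
    (fun g => ⟨fun n => ext0 g.1 (e n), ext0 g.1, ext0_dec h g.2, fun n => rfl⟩) ?_
  · intro x y hxy
    apply Subtype.ext
    funext n
    have h1 := congrFun (congrArg Subtype.val hxy) ⟨e n, hmem n⟩
    rw [hf2 x n, hf2 y n]
    exact congrArg Fin.val h1
  · intro g g' hgg
    apply Subtype.ext
    funext a
    have ha : (a : ℕ) ∈ Set.range e := he.symm ▸ a.2
    obtain ⟨n, hn⟩ := ha
    have := congrFun (congrArg Subtype.val hgg) n
    simp only [hn, ext0_mem] at this
    exact Fin.ext this

theorem countable_of_represents {P D : Set (ℕ → ℕ)} (hc : P.Countable) (hi : P.Infinite)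
    (F : D ≃ P) : D.Countable ∧ D.Infinite := by
  have h1 : Countable P := hc.to_subtype
  have h2 : Infinite P := hi.to_subtype
  exact ⟨Set.countable_coe_iff.mp F.injective.countable,
    Set.infinite_coe_iff.mp (Infinite.of_injective F.symm F.symm.injective)⟩

theorem countable_of_upto {P D : Set (ℕ → ℕ)} {B : Set ℕ} {k : ℕ} (hc : P.Countable)
    (hi : P.Infinite) (hk : ∀ x ∈ D, ∀ n ∈ B, x n < k) (hB : ∀ x ∈ D, ∀ n, n ∉ B → x n = 0)
    (h : RepresentsUpToPerm P D B) : D.Countable ∧ D.Infinite := by
  obtain ⟨F, -, hF⟩ := h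
  have h1 : Countable P := hc.to_subtype
  have h2 : Infinite P := hi.to_subtype
  constructor
  · choose G hG using fun x : D => (hF x).exists
    choose σ hσ using hG
    have hinj : Function.Injective fun x : D => (G x, fun i : Fin k => σ x i) := by
      intro x y hxy
      have e1 : G x = G y := congrArg Prod.fst hxy
      have e2 : ∀ i : Fin k, σ x i = σ y i := fun i => congrFun (congrArg Prod.snd hxy) i
      apply Subtype.ext
      funext n
      by_cases hn : n ∈ B
      · rw [hσ x n hn, hσ y n hn, e1]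
        exact e2 ⟨_, hk _ (F (G y)).2 n hn⟩
      · rw [hB _ x.2 n hn, hB _ y.2 n hn]
    exact Set.countable_coe_iff.mp hinj.countable
  · have hinj : Function.Injective F := by
      intro p q hpq
      obtain ⟨r, -, hr⟩ := hF (F p)
      have e1 : p = r := hr p ⟨1, fun n _ => rfl⟩
      have e2 : q = r := hr q ⟨1, fun n _ => by rw [hpq]; rfl⟩
      rw [e1, e2]
    exact Set.infinite_coe_iff.mp (Infinite.of_injective F hinj)

/-- Negative answer to Q1: there is a computably bounded `Π⁰₁` class `P` which, for every computable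
partial ordering `(A, R)` and every `k`, does not represent the class of decompositions of `(A, R)`
into `k` chains, for either way of viewing decompositions as elements of `ω^ω`, and not even up to
permutations of the `k` colours. -/
theorem result : ∃ P : Set (ℕ → ℕ), IsCBClass P ∧
    ∀ (A : Set ℕ) (R : ℕ → ℕ → Prop), IsComputablePoset A R → ∀ k : ℕ,
      (¬ Represents P (decZero A R k) ∧ ¬ RepresentsUpToPerm P (decZero A R k) A) ∧
        ∀ e : ℕ → ℕ, Computable e → Set.range e = A →
          ¬ Represents P (decEnum A R k e) ∧ ¬ RepresentsUpToPerm P (decEnum A R k e) Set.univ := by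
  refine ⟨paths T1, T1_cb, fun A R h k => ⟨⟨?_, ?_⟩, fun e _ he => ⟨?_, ?_⟩⟩⟩
  · rintro ⟨F, -⟩
    obtain ⟨h1, h2⟩ := countable_of_represents paths_T1_countable paths_T1_infinite F
    exact zero_case h k h1 h2
  · intro H
    obtain ⟨h1, h2⟩ := countable_of_upto (k := k) paths_T1_countable paths_T1_infinite
      (fun x hx n hn => hx.1.1 n hn) (fun x hx n hn => hx.2 n hn) H
    exact zero_case h k h1 h2
  · rintro ⟨F, -⟩
    obtain ⟨h1, h2⟩ := countable_of_represents paths_T1_countable paths_T1_infinite F
    exact enum_case h k e he h1 h2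
  · intro H
    obtain ⟨h1, h2⟩ := countable_of_upto (k := k) paths_T1_countable paths_T1_infinite
      (fun x hx n _ => by
        obtain ⟨f, hf, hfe⟩ := hx
        rw [hfe]
        exact hf.1 _ (he ▸ Set.mem_range_self n)) (fun x _ n hn => absurd trivial hn) H
    exact enum_case h k e he h1 h2

end Pool.Agent.Results.MP_233b81_lc.ChainNegative
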